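import Mathlib

/-!
[PI 2] A group G acting on a finite set R, |R| = l^k n', l prime, l ∤ n', k > 0. Q = image of G in Perm(R), P = an l-Sylow of Q.
The orbits of P have l-power lengths and their sum is l^k n', so some orbit P θ₀ has length l^j, j ≤ k. If j = 0: H = preimage
of P, s = 1. If j > 0: P₀ = Stab_P(θ₀) < P₁ with [P₁ : P₀] = l, P₀ normal in P₁ (l-groups: Mathlib `Sylow.exists_subgroup_card_pow_succ`
or normalizer growth), H = preimage of P₁, [G : H] = [Q : P] l^(j-1); s ∈ H mapping to an element of P₁ \ P₀: h = s^i h₀ with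
h₀ ∈ P₀ and h (s^j θ₀) = s^i s^j (s^-j h₀ s^j) θ₀ = s^(i+j) θ₀.
-/

set_option autoImplicit false

open Finset

namespace Pool.Agent.LibPI63

/-- An orbit of an `l`-group acting on a set of `l ^ k * n'` elements with at most `l ^ k` elements. -/
private lemma exists_orbit {P R : Type*} [Group P] [Finite P] [MulAction P R] [Fintype R]
    {l k n' : ℕ} (hR : Fintype.card R = l ^ k * n') (hl : l.Prime) (hn' : ¬ l ∣ n') :
    ∃ θ₀ : R, ¬ l ^ (k + 1) ∣ (MulAction.stabilizer P θ₀).index := by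
  classical
  by_contra hcon
  push Not at hcon
  have h1 := Nat.card_congr (MulAction.selfEquivSigmaOrbitsQuotientStabilizer P R)
  haveI : Fintype (Quotient (MulAction.orbitRel P R)) := Fintype.ofFinite _
  rw [Nat.card_sigma, Nat.card_eq_fintype_card, hR] at h1
  have h2 : l ^ (k + 1) ∣ l ^ k * n' := by
    rw [h1]
    exact Finset.dvd_sum fun ω _ => hcon ω.out
  rw [pow_succ] at h2
  exact hn' (Nat.dvd_of_mul_dvd_mul_left (pow_pos hl.pos k) h2)

/-- A block of length `1` or `l` in the orbit of a point under an `l`-group. -/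
private lemma exists_block_aux {P R : Type*} [Group P] [Finite P] [MulAction P R] {l : ℕ}
    (hl : l.Prime) (hP : IsPGroup l P) (θ₀ : R) :
    ∃ (K : Subgroup P) (s : P), s ∈ K ∧ s ^ l • θ₀ = θ₀ ∧
        (∀ h ∈ K, ∃ i : ℕ, ∀ j : ℕ, h • (s ^ j • θ₀) = s ^ i • (s ^ j • θ₀)) ∧
        (s • θ₀ = θ₀ ∨ ∀ i : ℕ, s ^ i • θ₀ = θ₀ → l ∣ i) ∧
        (K.index = 1 ∨ K.index * l = (MulAction.stabilizer P θ₀).index) := by
  classical
  haveI : Fact l.Prime := ⟨hl⟩
  by_cases hfix : ∀ g : P, g • θ₀ = θ₀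
  · refine ⟨⊤, 1, Subgroup.mem_top _, by simp, fun h _ => ⟨0, fun j => by simp [hfix]⟩,
      Or.inl (by simp), Or.inl Subgroup.index_top⟩
  set P₀ : Subgroup P := MulAction.stabilizer P θ₀ with hP₀
  have hmem : ∀ g : P, g ∈ P₀ ↔ g • θ₀ = θ₀ := fun g => MulAction.mem_stabilizer_iff
  obtain ⟨N, hN⟩ := IsPGroup.iff_card.1 hP
  obtain ⟨a, ha⟩ := IsPGroup.iff_card.1 (hP.to_subgroup P₀)
  have hne : P₀ ≠ ⊤ := by
    intro h
    apply hfix
    intro g
    rw [← hmem, h]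
    exact Subgroup.mem_top g
  have haN : a < N := by
    have h1 : Nat.card P₀ ∣ Nat.card P := Subgroup.card_subgroup_dvd_card P₀
    rw [ha, hN] at h1
    have h2 := (Nat.pow_dvd_pow_iff_le_right hl.one_lt).1 h1
    rcases h2.lt_or_eq with h3 | h3
    · exact h3
    · exfalso
      apply hne
      apply Subgroup.eq_top_of_card_eq
      rw [ha, hN, h3]
  obtain ⟨K, hK, hPK⟩ := Sylow.exists_subgroup_card_pow_succ (G := P) (p := l) (n := a)
    (by rw [hN]; exact pow_dvd_pow l haN) (H := P₀) ha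
  -- the index of `P₀` in `K`
  have hrel : (P₀.subgroupOf K).index = l := by
    have h1 := Subgroup.card_mul_index (P₀.subgroupOf K)
    rw [Nat.card_congr (Subgroup.subgroupOfEquivOfLe hPK).toEquiv, ha, hK, pow_succ] at h1
    exact Nat.eq_of_mul_eq_mul_left (pow_pos hl.pos a) h1
  haveI hnorm : (P₀.subgroupOf K).Normal := by
    apply Subgroup.normal_of_index_eq_minFac_card
    rw [hrel, hK, hl.pow_minFac (Nat.succ_ne_zero a)]
  have hKi : K.index * l = P₀.index := by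
    rw [← Subgroup.relIndex_mul_index hPK, mul_comm]
    congr 1
    exact hrel.symm
  obtain ⟨s, hsK, hsP⟩ : ∃ s ∈ K, s ∉ P₀ := by
    by_contra hcon
    push Not at hcon
    have h1 : K = P₀ := le_antisymm hcon hPK
    have h2 : l ^ (a + 1) = l ^ a := by rw [← hK, ← ha, h1]
    have := Nat.pow_right_injective hl.two_le h2
    omega
  have hcard : Nat.card (K ⧸ (P₀.subgroupOf K)) = l := by rw [← Subgroup.index_eq_card, hrel]
  have hs1 : ((⟨s, hsK⟩ : K) : K ⧸ (P₀.subgroupOf K)) ≠ 1 := by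
    intro h
    rw [QuotientGroup.eq_one_iff, Subgroup.mem_subgroupOf] at h
    exact hsP h
  refine ⟨K, s, hsK, ?_, ?_, Or.inr ?_, Or.inr hKi⟩
  · have h1 := Subgroup.pow_index_mem (P₀.subgroupOf K) ⟨s, hsK⟩
    rw [hrel, Subgroup.mem_subgroupOf] at h1
    exact (hmem _).1 h1
  · intro h hh
    obtain ⟨i, hi⟩ := Submonoid.mem_powers_iff _ _ |>.1
      (mem_powers_of_prime_card hcard hs1
        (g' := ((⟨h, hh⟩ : K) : K ⧸ (P₀.subgroupOf K))))
    refine ⟨i, fun j => ?_⟩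
    have h1 : (⟨s, hsK⟩ ^ i : K)⁻¹ * ⟨h, hh⟩ ∈ P₀.subgroupOf K := by
      rw [← QuotientGroup.eq, QuotientGroup.mk_pow]
      exact hi
    have h2 := hnorm.conj_mem _ h1 ((⟨s, hsK⟩ ^ j : K)⁻¹)
    rw [Subgroup.mem_subgroupOf, hmem] at h2
    have h3 : ((s ^ j)⁻¹ * ((s ^ i)⁻¹ * h) * s ^ j) • θ₀ = θ₀ := by
      simpa using h2
    have h4 : h * s ^ j = s ^ i * s ^ j * ((s ^ j)⁻¹ * ((s ^ i)⁻¹ * h) * s ^ j) := by group
    rw [← mul_smul, ← mul_smul, h4, mul_smul, h3]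
  · intro i hi
    have h1 : ((⟨s, hsK⟩ : K) : K ⧸ (P₀.subgroupOf K)) ^ i = 1 := by
      rw [← QuotientGroup.mk_pow, QuotientGroup.eq_one_iff, Subgroup.mem_subgroupOf, hmem]
      exact hi
    have h2 : orderOf ((⟨s, hsK⟩ : K) : K ⧸ (P₀.subgroupOf K)) = l := by
      refine orderOf_eq_prime ?_ hs1
      rw [← hcard]
      exact pow_card_eq_one'
    rw [← h2]
    exact orderOf_dvd_of_pow_eq_one h1

theorem exists_block {G R : Type*} [Group G] [MulAction G R] [Fintype R] {l k n' : ℕ}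
    (hl : l.Prime) (hR : Fintype.card R = l ^ k * n') (hn' : ¬ l ∣ n') (hk : 0 < k) :
    ∃ H : Subgroup G, H.index ≠ 0 ∧ ¬ l ^ k ∣ H.index ∧
      (∀ g : G, (∀ θ : R, g • θ = θ) → ∀ u : G, u⁻¹ * g * u ∈ H) ∧
      ∃ (θ₀ : R) (s : G), s ∈ H ∧ s ^ l • θ₀ = θ₀ ∧
        (∀ h ∈ H, ∃ i : ℕ, ∀ j : ℕ, h • (s ^ j • θ₀) = s ^ i • (s ^ j • θ₀)) ∧
        (s • θ₀ = θ₀ ∨ ∀ i : ℕ, s ^ i • θ₀ = θ₀ → l ∣ i) := by
  classical
  haveI : Fact l.Prime := ⟨hl⟩
  set φ : G →* Equiv.Perm R := MulAction.toPermHom G R with hφ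
  have hφa : ∀ (g : G) (θ : R), φ g θ = g • θ := fun g θ => rfl
  have hker : ∀ g : G, (∀ θ : R, g • θ = θ) → φ g = 1 := fun g h => Equiv.ext h
  obtain ⟨P⟩ : Nonempty (Sylow l φ.range) := inferInstance
  obtain ⟨θ₀, hθ₀⟩ := exists_orbit (P := P) (R := R) hR hl hn'
  obtain ⟨K, s₁, hs₁K, hs₁l, hs₁h, hs₁c, hK⟩ := exists_block_aux hl P.2 θ₀
  set K' : Subgroup φ.range := K.map (P : Subgroup φ.range).subtype with hK'
  have hidx : K'.index = K.index * (P : Subgroup φ.range).index := Subgroup.index_map_subtype K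
  obtain ⟨s, hs⟩ := φ.rangeRestrict_surjective (s₁ : φ.range)
  have hact : ∀ (u : P) (g : G), φ.rangeRestrict g = (u : φ.range) → ∀ θ : R, g • θ = u • θ := by
    intro u g h θ
    have h1 : φ g = ((u : φ.range) : Equiv.Perm R) := congrArg Subtype.val h
    rw [← hφa, h1]
    rfl
  have hsi : ∀ (i : ℕ) (θ : R), s ^ i • θ = s₁ ^ i • θ := by
    intro i θ
    refine hact (s₁ ^ i) (s ^ i) ?_ θ
    rw [map_pow, hs]
    rfl
  refine ⟨K'.comap φ.rangeRestrict, ?_, ?_, ?_, θ₀, s, ?_, ?_, ?_, ?_⟩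
  · rw [Subgroup.index_comap_of_surjective _ φ.rangeRestrict_surjective]
    exact Subgroup.index_ne_zero_of_finite
  · rw [Subgroup.index_comap_of_surjective _ φ.rangeRestrict_surjective, hidx]
    intro hdvd
    have hcop : Nat.Coprime (l ^ k) (P : Subgroup φ.range).index :=
      Nat.Coprime.pow_left k ((hl.coprime_iff_not_dvd).2 P.not_dvd_index)
    have h1 := hcop.dvd_of_dvd_mul_right hdvd
    rcases hK with h2 | h2
    · rw [h2, Nat.dvd_one] at h1
      have h3 : 1 < l ^ k := Nat.one_lt_pow hk.ne' hl.one_lt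
      omega
    · apply hθ₀
      rw [← h2, pow_succ]
      exact Nat.mul_dvd_mul_right h1 l
  · intro g hg u
    have h1 : φ.rangeRestrict (u⁻¹ * g * u) = 1 := by
      apply Subtype.ext
      show φ (u⁻¹ * g * u) = 1
      rw [map_mul, map_mul, hker g hg, mul_one, ← map_mul, inv_mul_cancel, map_one]
    rw [Subgroup.mem_comap, h1]
    exact one_mem _
  · rw [Subgroup.mem_comap, hs, hK']
    exact ⟨s₁, hs₁K, rfl⟩
  · rw [hsi]
    exact hs₁l
  · intro h hh
    rw [Subgroup.mem_comap, hK'] at hh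
    obtain ⟨u, huK, hu⟩ := hh
    obtain ⟨i, hi⟩ := hs₁h u huK
    refine ⟨i, fun j => ?_⟩
    rw [hsi, hsi, hact u h hu.symm]
    exact hi j
  · rcases hs₁c with h | h
    · left
      have := hsi 1 θ₀
      rw [pow_one, pow_one] at this
      rw [this]
      exact h
    · right
      intro i hi
      exact h i (by rw [← hsi]; exact hi)

end Pool.Agent.LibPI63
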