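import Pool.Agent.LibCoc63.Defs

/-!
[PI 1] The combinatorial core (the hypotheses are only about the points s^j θ₀). For x ∈ X, i ∈ ℕ put q x i = ∏_(j < i) M (r x s^(j+1) θ₀) (r x s^j θ₀), b x = q x l;
q x (i + l) = q x i * b x (s^l acts trivially). With y = g⁻¹ • x, (h1) and (hχ):
  g(q y i) = q x (χ g x + i) / q x (χ g x) * μ g (r y θ₀) / μ g (r y s^i θ₀)                        (*)
(i = l: b is equivariant). λ g x := μ g (r y θ₀) / q x (χ g x). With w = (g h)⁻¹ x = h⁻¹ y and (h2) at θ = r w θ₀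
(h r w θ₀ = r y s^(χ h y) θ₀):  λ g x * g(λ h y) / λ (g h) x = δ g h * q x (χ (gh) x) / q x (χ g x + χ h y)
= δ g h / b x ^ k g h x. Product over x: β g = ∏_x λ g x, ∏_x g(λ h (g⁻¹ x)) = act g (β h) (reindex).
-/

set_option autoImplicit false

open Finset Pool.Agent.LibCoc63

namespace Pool.Agent.LibPI63

variable {B Ω : Type*} [Field B] [Field Ω] [Algebra B Ω]

private lemma aux_add {G : Type*} [AddCommGroup G] {U A N Q Z E T K d : G} (h1 : T + N = d + Z)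
    (h2 : Q + A + T = E + K + U) : U + -A + (N + -Q) + -(Z + -E) = d + -K := by
  have e1 : N = d + Z - T := by rw [← h1]; abel
  have e2 : U = Q + A + T - E - K := by rw [h2]; abel
  rw [e1, e2]
  abel

private lemma aux_mul {G : Type*} [CommGroup G] {U A N Q Z E T K d : G} (h1 : T * N = d * Z)
    (h2 : Q * A * T = E * K * U) : U * A⁻¹ * (N * Q⁻¹) * (Z * E⁻¹)⁻¹ = d * K⁻¹ :=
  aux_add (G := Additive G) h1 h2

private lemma aux_add' {G : Type*} [AddCommGroup G] {a m A T T' E U : G}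
    (h : a + A + T = E + U) : a + m + A + T' = E + (T' + m + -T) + U := by
  have e : a = E + U - T - A := by rw [← h]; abel
  rw [e]
  abel

private lemma aux_mul' {G : Type*} [CommGroup G] {a m A T T' E U : G}
    (h : a * A * T = E * U) : a * m * A * T' = E * (T' * m * T⁻¹) * U :=
  aux_add' (G := Additive G) h

private lemma Cts.inv_smul {X : Type*} [MulAction (Ω ≃ₐ[B] Ω) X] [CtsSet B Ω X] :
    Cts (fun (g : Ω ≃ₐ[B] Ω) (x : X) => g⁻¹ • x) := by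
  obtain ⟨T, hT⟩ := CtsSet.inv_smul_cts (B := B) (Ω := Ω) (X := X)
  exact ⟨T, fun g g' h => funext (hT g g' h)⟩

theorem combN {R : Type*} [MulAction (Ω ≃ₐ[B] Ω) R] {X : Type*} [Fintype X]
    [MulAction (Ω ≃ₐ[B] Ω) X] [CtsSet B Ω X] (μ : (Ω ≃ₐ[B] Ω) → R → Ωˣ) (M : R → R → Ωˣ)
    (δ : (Ω ≃ₐ[B] Ω) → (Ω ≃ₐ[B] Ω) → Ωˣ) (hμ : Cts μ)
    (h1 : ∀ g θ' θ, M (g • θ') (g • θ) = μ g θ' * act g (M θ' θ) * (μ g θ)⁻¹)
    (h2 : ∀ g h θ, μ g (h • θ) * act g (μ h θ) = δ g h * μ (g * h) θ)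
    (r : X → (Ω ≃ₐ[B] Ω)) (s : Ω ≃ₐ[B] Ω) {l : ℕ} (θ₀ : R) (hs : s ^ l • θ₀ = θ₀)
    (χ : (Ω ≃ₐ[B] Ω) → X → ℕ) (hχc : Cts χ)
    (hχ : ∀ g x (j : ℕ), (g * r (g⁻¹ • x)) • (s ^ j • θ₀) = (r x * s ^ χ g x) • (s ^ j • θ₀))
    (k : (Ω ≃ₐ[B] Ω) → (Ω ≃ₐ[B] Ω) → X → ℕ)
    (hk : ∀ g h x, χ g x + χ h (g⁻¹ • x) = χ (g * h) x + l * k g h x) :
    ∃ b ∈ Eqv B Ω X, ∃ β : (Ω ≃ₐ[B] Ω) → Ωˣ, Cts β ∧
      ∀ g h, δ g h ^ Fintype.card X = (∏ x, b x ^ k g h x) * bd β g h := by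
  classical
  obtain ⟨q, hq⟩ : ∃ q : X → ℕ → Ωˣ, ∀ x i, q x i =
      ∏ j ∈ range i, M (r x • (s ^ (j + 1) • θ₀)) (r x • (s ^ j • θ₀)) := ⟨_, fun _ _ => rfl⟩
  have hq0 : ∀ x, q x 0 = 1 := fun x => by rw [hq]; simp
  have hqs : ∀ x i, q x (i + 1) = q x i * M (r x • (s ^ (i + 1) • θ₀)) (r x • (s ^ i • θ₀)) :=
    fun x i => by rw [hq, hq, prod_range_succ]
  have hper : ∀ i, s ^ (i + l) • θ₀ = s ^ i • θ₀ := fun i => by rw [pow_add, mul_smul, hs]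
  have hqadd : ∀ x i, q x (i + l) = q x i * q x l := by
    intro x i
    induction i with
    | zero => rw [zero_add, hq0, one_mul]
    | succ i ih =>
      rw [show i + 1 + l = (i + l) + 1 by ring, hqs, ih, hqs, show i + l + 1 = i + 1 + l by ring,
        hper, hper]
      rw [mul_right_comm]
  have hqmul : ∀ x i k, q x (i + l * k) = q x i * q x l ^ k := by
    intro x i k
    induction k with
    | zero => simp
    | succ k ih =>
      rw [show i + l * (k + 1) = (i + l * k) + l by ring, hqadd, ih, pow_succ, mul_assoc]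
  have hmove : ∀ g x j, g • (r (g⁻¹ • x) • (s ^ j • θ₀)) = r x • (s ^ (χ g x + j) • θ₀) := by
    intro g x j
    rw [← mul_smul, hχ g x, mul_smul, pow_add, mul_smul]
  have key : ∀ g x i, act g (q (g⁻¹ • x) i) * q x (χ g x) * μ g (r (g⁻¹ • x) • (s ^ i • θ₀)) =
      q x (χ g x + i) * μ g (r (g⁻¹ • x) • θ₀) := by
    intro g x i
    induction i with
    | zero => rw [hq0, map_one, one_mul, pow_zero, one_smul, add_zero]
    | succ i ih =>
      rw [hqs, map_mul, show χ g x + (i + 1) = (χ g x + i) + 1 by ring, hqs,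
        show χ g x + i + 1 = χ g x + (i + 1) by ring, ← hmove, ← hmove,
        h1 g (r (g⁻¹ • x) • (s ^ (i + 1) • θ₀)) (r (g⁻¹ • x) • (s ^ i • θ₀))]
      exact aux_mul' ih
  have hb : ∀ (g : Ω ≃ₐ[B] Ω) (x : X), act g (q (g⁻¹ • x) l) = q x l := by
    intro g x
    have h3 := key g x l
    rw [hs, hqadd] at h3
    have h4 := mul_right_cancel h3
    rw [mul_comm] at h4
    exact mul_left_cancel h4
  refine ⟨fun x => q x l, ?_, fun g => ∏ x, μ g (r (g⁻¹ • x) • θ₀) * (q x (χ g x))⁻¹, ?_, ?_⟩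
  · intro g x
    have h3 := hb g (g • x)
    rw [inv_smul_smul] at h3
    exact h3.symm
  · exact (hμ.prodMk (hχc.prodMk Cts.inv_smul)).comp
      (fun p => ∏ x, p.1 (r (p.2.2 x) • θ₀) * (q x (p.2.1 x))⁻¹)
  · intro g h
    have h3 : ∀ x, δ g h = q x l ^ k g h x *
        (μ g (r (g⁻¹ • x) • θ₀) * (q x (χ g x))⁻¹ *
        (act g (μ h (r (h⁻¹ • (g⁻¹ • x)) • θ₀)) * (act g (q (g⁻¹ • x) (χ h (g⁻¹ • x))))⁻¹) *
        (μ (g * h) (r ((g * h)⁻¹ • x) • θ₀) * (q x (χ (g * h) x))⁻¹)⁻¹) := by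
      intro x
      have e0 : h⁻¹ • (g⁻¹ • x) = (g * h)⁻¹ • x := by rw [mul_inv_rev, mul_smul]
      have e1 := h2 g h (r ((g * h)⁻¹ • x) • θ₀)
      have e2 := hmove h (g⁻¹ • x) 0
      rw [pow_zero, one_smul, e0, add_zero] at e2
      rw [e2] at e1
      have e3 := key g x (χ h (g⁻¹ • x))
      rw [hk, hqmul] at e3
      rw [e0, aux_mul e1 e3, mul_comm, inv_mul_cancel_right]
    have h4 : δ g h ^ Fintype.card X = ∏ x, (q x l ^ k g h x *
        (μ g (r (g⁻¹ • x) • θ₀) * (q x (χ g x))⁻¹ *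
        (act g (μ h (r (h⁻¹ • (g⁻¹ • x)) • θ₀)) * (act g (q (g⁻¹ • x) (χ h (g⁻¹ • x))))⁻¹) *
        (μ (g * h) (r ((g * h)⁻¹ • x) • θ₀) * (q x (χ (g * h) x))⁻¹)⁻¹)) := by
      rw [← Finset.card_univ, ← Finset.prod_const]
      exact Finset.prod_congr rfl (fun x _ => h3 x)
    rw [h4, Finset.prod_mul_distrib, Finset.prod_mul_distrib, Finset.prod_mul_distrib]
    congr 1
    rw [bd, Finset.prod_inv_distrib]
    congr 2
    rw [map_prod, ← Equiv.prod_comp (MulAction.toPerm (g⁻¹))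
      (fun y => act g (μ h (r (h⁻¹ • y) • θ₀) * (q y (χ h y))⁻¹))]
    refine Finset.prod_congr rfl (fun x _ => ?_)
    rw [map_mul, map_inv]
    rfl

end Pool.Agent.LibPI63
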