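import Pool.Agent.LibCoc63.Conj
import Pool.Agent.LibCoc63.Diag

/-!
[PI 4] As COC A5 (see LibCoc63/Diag.lean by helper8, copy from it) for any degree n ≥ 2. Only new point: an element d ∈ D whose
minimal polynomial has degree n. ρ₀ from exists_rep (m = n), e_1, .., e_N a basis of D (N = n²). P(t) := det of the n × n matrix
((∑ t_i ρ₀(e_i))^j)_(a a), (a, j) ∈ Fin n × Fin n, a polynomial in t_1, .., t_N over Ω (MvPolynomial; eval commutes with det
and powers). P ≠ 0: the ρ₀(e_i) span M_n(Ω), take t ∈ Ω^N with ∑ t_i ρ₀(e_i) = diag(distinct) : Vandermonde. F is infinite (D not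
commutative: littleWedderburn), so P(t) ≠ 0 for some t ∈ F^N (Mathlib: MvPolynomial.funext-type lemma for infinite subsets /
exists_eval_ne_zero, or induction); d = ∑ t_i e_i: 1, d, .., d^(n-1) are independent over F (a relation would hold for the
diagonal entries of the powers), so deg minpoly ≥ n, and ≤ n by eigenvectors as in Diag.
-/

set_option autoImplicit false

open Finset Module Pool.Agent.LibCoc63

namespace Pool.Agent.LibPI63

private lemma minpoly_repN {F Ω D : Type*} [Field F] [Field Ω] [Algebra F Ω]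
    [Ring D] [Algebra F D] [FiniteDimensional F D] {m : ℕ} [Nonempty (Fin m)]
    {ρ : D →ₐ[F] Matrix (Fin m) (Fin m) Ω} (hρ : IsRep ρ) (d : D) :
    minpoly Ω (ρ d) = (minpoly F d).map (algebraMap F Ω) := by
  have hint : IsIntegral F d := Algebra.IsIntegral.isIntegral d
  have hint' : IsIntegral Ω (ρ d) := Algebra.IsIntegral.isIntegral _
  have hmon : (minpoly F d).Monic := minpoly.monic hint
  have h0 : Polynomial.aeval (ρ d) ((minpoly F d).map (algebraMap F Ω)) = 0 := by
    rw [Polynomial.aeval_map_algebraMap, Polynomial.aeval_algHom_apply, minpoly.aeval, map_zero]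
  have hdvd : minpoly Ω (ρ d) ∣ (minpoly F d).map (algebraMap F Ω) := minpoly.dvd _ _ h0
  have hind := hρ.linearIndependent (linearIndependent_pow (K := F) d)
  refine (Polynomial.eq_of_monic_of_dvd_of_natDegree_le (minpoly.monic hint') (hmon.map _) hdvd
    ?_).symm
  rw [Polynomial.natDegree_map]
  by_contra hlt
  push Not at hlt
  have h1 : Polynomial.aeval (ρ d) (minpoly Ω (ρ d)) = 0 := minpoly.aeval _ _
  rw [Polynomial.aeval_eq_sum_range' hlt, Finset.sum_range] at h1
  have h2 := Fintype.linearIndependent_iff.1 hind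
    (fun i => (minpoly Ω (ρ d)).coeff i) (by
      rw [← h1]
      refine Finset.sum_congr rfl fun i _ => ?_
      rw [map_pow])
  have h3 := h2 ⟨(minpoly Ω (ρ d)).natDegree, hlt⟩
  have h4 : (minpoly Ω (ρ d)).coeff (minpoly Ω (ρ d)).natDegree = 1 :=
    (minpoly.monic hint').coeff_natDegree
  simp only at h3
  rw [h4] at h3
  exact one_ne_zero h3

/-- The matrix of the diagonal entries of the powers. -/
private def pwN {S : Type*} [CommRing S] {m : ℕ} (A : Matrix (Fin m) (Fin m) S) :
    Matrix (Fin m) (Fin m) S := Matrix.of fun a j => (A ^ (j : ℕ)) a a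

private lemma pwN_map {S T : Type*} [CommRing S] [CommRing T] {m : ℕ} (φ : S →+* T)
    (A : Matrix (Fin m) (Fin m) S) : φ (pwN A).det = (pwN (φ.mapMatrix A)).det := by
  rw [RingHom.map_det]
  congr 1
  ext a j
  simp only [pwN, RingHom.mapMatrix_apply, Matrix.map_apply, Matrix.of_apply]
  rw [← RingHom.mapMatrix_apply, ← map_pow, RingHom.mapMatrix_apply, Matrix.map_apply]

/-- A generic element has degree at least `m`. -/
private lemma exists_genN {F Ω D : Type*} [Field F] [Infinite F] [Field Ω] [Algebra F Ω]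
    [Ring D] [Algebra F D] [FiniteDimensional F D] {m : ℕ} [Nonempty (Fin m)]
    {ρ : D →ₐ[F] Matrix (Fin m) (Fin m) Ω} (hρ : IsRep ρ) :
    ∃ d : D, m ≤ (minpoly F d).natDegree := by
  classical
  have hinfΩ : Infinite Ω := Infinite.of_injective _ (algebraMap F Ω).injective
  let e := Module.finBasis F D
  -- the generic matrix
  let M : Matrix (Fin m) (Fin m) (MvPolynomial (Fin (finrank F D)) Ω) :=
    ∑ i, (MvPolynomial.X i : MvPolynomial (Fin (finrank F D)) Ω) •
      (MvPolynomial.C (σ := Fin (finrank F D))).mapMatrix (ρ (e i))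
  let Q : MvPolynomial (Fin (finrank F D)) Ω := (pwN M).det
  have hM : ∀ t : Fin (finrank F D) → Ω,
      (MvPolynomial.eval t).mapMatrix M = ∑ i, t i • ρ (e i) := by
    intro t
    ext a b
    simp only [M, RingHom.mapMatrix_apply, Matrix.map_apply, Matrix.sum_apply, Matrix.smul_apply,
      smul_eq_mul, map_sum, map_mul, MvPolynomial.eval_X, MvPolynomial.eval_C]
  have hQ : ∀ t : Fin (finrank F D) → Ω,
      MvPolynomial.eval t Q = (pwN (∑ i, t i • ρ (e i))).det := by
    intro t
    rw [← hM t]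
    exact pwN_map (MvPolynomial.eval t) M
  -- it is not zero
  have hspan : Submodule.span Ω (Set.range fun i => ρ (e i)) = ⊤ := by
    rw [eq_top_iff, ← hρ.1, Submodule.span_le]
    rintro _ ⟨x, rfl⟩
    have h1 : ρ x = ∑ i, (algebraMap F Ω (e.repr x i)) • ρ (e i) := by
      conv_lhs => rw [← e.sum_repr x]
      rw [map_sum]
      refine Finset.sum_congr rfl fun i _ => ?_
      rw [map_smul, algebraMap_smul]
    rw [h1]
    exact Submodule.sum_mem _ fun i _ => Submodule.smul_mem _ _ (Submodule.subset_span ⟨i, rfl⟩)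
  have hQ0 : Q ≠ 0 := by
    intro h0
    let x : Fin m → Ω := fun a => Infinite.natEmbedding Ω a
    have hx : Function.Injective x := fun a b hab =>
      Fin.ext ((Infinite.natEmbedding Ω).injective hab)
    have h1 : Matrix.diagonal x ∈ Submodule.span Ω (Set.range fun i => ρ (e i)) := by
      rw [hspan]
      trivial
    obtain ⟨t, ht⟩ := (Submodule.mem_span_range_iff_exists_fun Ω).1 h1
    have h2 := hQ t
    rw [h0, map_zero, ht] at h2
    have h3 : pwN (Matrix.diagonal x) = Matrix.vandermonde x := by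
      ext a j
      rw [pwN, Matrix.of_apply, Matrix.diagonal_pow, Matrix.diagonal_apply_eq, Pi.pow_apply,
        Matrix.vandermonde_apply]
    rw [h3] at h2
    exact (Matrix.det_vandermonde_ne_zero_iff.2 hx) h2.symm
  obtain ⟨t, ht⟩ : ∃ t : Fin (finrank F D) → F,
      MvPolynomial.eval (fun i => algebraMap F Ω (t i)) Q ≠ 0 := by
    by_contra hcon
    push Not at hcon
    apply hQ0
    refine MvPolynomial.funext_set (fun _ => Set.range (algebraMap F Ω))
      (fun _ => Set.infinite_range_of_injective (algebraMap F Ω).injective) fun x hx => ?_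
    have h1 : ∀ i, ∃ t : F, algebraMap F Ω t = x i := fun i => hx i (Set.mem_univ i)
    choose t ht using h1
    have h2 := hcon t
    have h3 : (fun i => algebraMap F Ω (t i)) = x := funext ht
    rw [h3] at h2
    rw [h2, map_zero]
  rw [hQ] at ht
  set d : D := ∑ i, t i • e i with hd
  have hρd : ∑ i, (algebraMap F Ω (t i)) • ρ (e i) = ρ d := by
    rw [hd, map_sum]
    refine Finset.sum_congr rfl fun i _ => ?_
    rw [map_smul, algebraMap_smul]
  rw [hρd] at ht
  refine ⟨d, ?_⟩
  by_contra hlt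
  push Not at hlt
  apply ht
  -- a relation
  have hint : IsIntegral F d := Algebra.IsIntegral.isIntegral d
  have h1 : Polynomial.aeval d (minpoly F d) = 0 := minpoly.aeval _ _
  rw [Polynomial.aeval_eq_sum_range' hlt, Finset.sum_range] at h1
  let c : Fin m → Ω := fun j => algebraMap F Ω ((minpoly F d).coeff j)
  have hc0 : c ≠ 0 := by
    intro h0
    have h2 := congrFun h0 ⟨(minpoly F d).natDegree, hlt⟩
    have h3 : (minpoly F d).coeff (minpoly F d).natDegree = 1 :=
      (minpoly.monic hint).coeff_natDegree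
    simp only [c, Pi.zero_apply] at h2
    rw [h3, map_one] at h2
    exact one_ne_zero h2
  refine Matrix.exists_mulVec_eq_zero_iff.1 ⟨c, hc0, ?_⟩
  ext a
  have h2 := congrArg (fun y : D => ρ y a a) h1
  simp only [map_sum, map_smul, map_pow, map_zero, Matrix.sum_apply, Matrix.zero_apply] at h2
  rw [Matrix.mulVec, dotProduct, Pi.zero_apply]
  rw [← h2]
  refine Finset.sum_congr rfl fun j _ => ?_
  rw [pwN, Matrix.of_apply, Matrix.smul_apply, Algebra.smul_def, mul_comm]

theorem exists_diagN {F Ω D : Type*} [Field F] [PerfectField F] [Field Ω] [Algebra F Ω]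
    [IsAlgClosed Ω] [DecidableEq Ω] [DivisionRing D] [Algebra F D] [Algebra.IsCentral F D] {n : ℕ}
    (hn : 2 ≤ n) (hD : finrank F D = n ^ 2) :
    ∃ R : Finset Ω, (∀ (g : Ω ≃ₐ[F] Ω), ∀ θ ∈ R, g θ ∈ R) ∧ R.card = n ∧
      ∃ (ρ : D →ₐ[F] Matrix R R Ω) (d d' : D), IsRep ρ ∧
        ρ d = Matrix.diagonal (fun θ : R => (θ : Ω)) ∧ ∀ θ θ' : R, θ ≠ θ' → ρ d' θ θ' ≠ 0 := by
  have : FiniteDimensional F D := Module.finite_of_finrank_pos (by
    rw [hD]; exact pow_pos (by omega) 2)
  have hD1 : finrank F D ≠ 1 := by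
    rw [hD]
    intro h
    nlinarith
  have hbt : (⊥ : Subalgebra F D) ≠ ⊤ := fun h => hD1 (Subalgebra.bot_eq_top_iff_finrank_eq_one.1 h)
  have hinf : Infinite F := by
    by_contra hfin
    rw [not_infinite_iff_finite] at hfin
    have : Finite D := Module.finite_of_finite F
    have hc := (Finite.isDomain_to_isField D).mul_comm
    apply hbt
    rw [← Algebra.IsCentral.center_eq_bot F D, eq_top_iff]
    intro x _
    rw [Subalgebra.mem_center_iff]
    intro y
    exact hc y x
  obtain ⟨m, hm0, ρ₀, hρ₀⟩ := exists_rep F Ω D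
  have : Nonempty (Fin m) := ⟨⟨0, Nat.pos_of_ne_zero hm0⟩⟩
  have hml : m = n := by
    have h1 := hρ₀.2
    rw [hD, Fintype.card_fin] at h1
    exact (Nat.pow_left_injective (le_refl 2 |>.trans (le_refl 2) |> fun _ => by norm_num) h1).symm
  subst hml
  -- the element `d`
  obtain ⟨d, hd⟩ := exists_genN hρ₀
  have hint : IsIntegral F d := Algebra.IsIntegral.isIntegral d
  set f := minpoly F d with hf
  have hirr : Irreducible f := minpoly.irreducible hint
  have hsep : f.Separable := PerfectField.separable_of_irreducible hirr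
  let R : Finset Ω := (f.rootSet Ω).toFinset
  have hR : ∀ θ, θ ∈ R ↔ Polynomial.aeval θ f = 0 := by
    intro θ
    rw [Set.mem_toFinset, Polynomial.mem_rootSet]
    exact ⟨fun h => h.2, fun h => ⟨hirr.ne_zero, h⟩⟩
  have hcard : R.card = f.natDegree := by
    rw [Set.toFinset_card]
    exact Polynomial.card_rootSet_eq_natDegree hsep (IsAlgClosed.splits _)
  -- eigenvectors
  have hmin := minpoly_repN hρ₀ d
  have heig : ∀ θ : R, ∃ u : Fin m → Ω,
      Module.End.HasEigenvector (Matrix.toLin' (ρ₀ d)) (θ : Ω) u := by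
    intro θ
    have h1 : (minpoly Ω (Matrix.toLin' (ρ₀ d))).IsRoot (θ : Ω) := by
      rw [Matrix.minpoly_toLin', hmin, Polynomial.IsRoot.def, Polynomial.eval_map_algebraMap]
      exact (hR θ).1 θ.2
    exact (Module.End.hasEigenvalue_of_isRoot h1).exists_hasEigenvector
  choose u hu using heig
  have hind : LinearIndependent Ω u :=
    Module.End.eigenvectors_linearIndependent' (Matrix.toLin' (ρ₀ d)) (fun θ : R => (θ : Ω))
      Subtype.val_injective u hu
  have hle : R.card ≤ m := by
    have h1 := hind.fintype_card_le_finrank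
    rw [Module.finrank_fin_fun, Fintype.card_coe] at h1
    exact h1
  have hRm : R.card = m := le_antisymm hle (by rw [hcard]; exact hd)
  have : Nonempty R := by
    rw [← Fintype.card_pos_iff, Fintype.card_coe, hRm]
    omega
  let b : Basis R Ω (Fin m → Ω) := basisOfLinearIndependentOfCardEqFinrank hind (by
    rw [Fintype.card_coe, hRm, Module.finrank_fin_fun])
  have hb : ∀ θ, b θ = u θ := fun θ => by simp [b]
  let e : Matrix (Fin m) (Fin m) Ω ≃ₐ[Ω] Matrix R R Ω :=
    (Matrix.toLinAlgEquiv' (R := Ω) (n := Fin m)).trans (LinearMap.toMatrixAlgEquiv b)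
  let ρ : D →ₐ[F] Matrix R R Ω := ((e.restrictScalars F : Matrix (Fin m) (Fin m) Ω ≃ₐ[F]
    Matrix R R Ω) : Matrix (Fin m) (Fin m) Ω →ₐ[F] Matrix R R Ω).comp ρ₀
  have hρe : ∀ x, ρ x = e (ρ₀ x) := fun _ => rfl
  have hspan : Submodule.span Ω (Set.range ρ) = ⊤ := by
    have h1 : Set.range ρ = (e.toLinearMap : Matrix (Fin m) (Fin m) Ω →ₗ[Ω] Matrix R R Ω) ''
        Set.range ρ₀ := by
      rw [← Set.range_comp]
      rfl
    rw [h1, Submodule.span_image, hρ₀.1, Submodule.map_top, LinearMap.range_eq_top]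
    exact e.surjective
  have hrep : IsRep ρ := ⟨hspan, by rw [hD, Fintype.card_coe, hRm]⟩
  have hdiag : ρ d = Matrix.diagonal (fun θ : R => (θ : Ω)) := by
    ext i j
    have h1 : ρ d i j = b.repr (Matrix.toLin' (ρ₀ d) (b j)) i := by
      rw [hρe]
      exact LinearMap.toMatrixAlgEquiv_apply b _ i j
    rw [h1, hb, (hu j).apply_eq_smul, map_smul, ← hb, Basis.repr_self, Finsupp.smul_apply,
      Finsupp.single_apply, Matrix.diagonal_apply, smul_eq_mul]
    by_cases hij : j = i
    · subst hij
      simp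
    · rw [if_neg hij, if_neg (fun h => hij h.symm), mul_zero]
  have hd' : ∃ d' : D, ∀ θ θ' : R, θ ≠ θ' → ρ d' θ θ' ≠ 0 := by
    by_contra hcon
    push Not at hcon
    let L : ∀ q : {q : R × R // q.1 ≠ q.2}, D →ₗ[F] Ω := fun q =>
      { toFun := fun x => ρ x q.1.1 q.1.2
        map_add' := fun x y => by rw [map_add]; rfl
        map_smul' := fun a x => by rw [map_smul]; rfl }
    have hcov : ⋃ q : {q : R × R // q.1 ≠ q.2}, ((LinearMap.ker (L q) : Subspace F D) : Set D) =
        Set.univ := by
      rw [Set.eq_univ_iff_forall]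
      intro x
      obtain ⟨θ, θ', h1, h2⟩ := hcon x
      exact Set.mem_iUnion.2 ⟨⟨(θ, θ'), h1⟩, h2⟩
    obtain ⟨q, hq⟩ := Subspace.exists_eq_top_of_iUnion_eq_univ hcov
    let N : Submodule Ω (Matrix R R Ω) :=
      { carrier := {M | M q.1.1 q.1.2 = 0}
        add_mem' := fun {a b} ha hb => by
          change a q.1.1 q.1.2 + b q.1.1 q.1.2 = 0
          rw [show a q.1.1 q.1.2 = 0 from ha, show b q.1.1 q.1.2 = 0 from hb, add_zero]
        zero_mem' := rfl
        smul_mem' := fun c a ha => by
          change c * a q.1.1 q.1.2 = 0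
          rw [show a q.1.1 q.1.2 = 0 from ha, mul_zero] }
    have h1 : (⊤ : Submodule Ω (Matrix R R Ω)) ≤ N := by
      rw [← hspan, Submodule.span_le]
      rintro _ ⟨x, rfl⟩
      have h2 : x ∈ LinearMap.ker (L q) := by rw [hq]; trivial
      exact h2
    have h2 : Matrix.single q.1.1 q.1.2 (1 : Ω) ∈ N := h1 trivial
    have h3 : Matrix.single q.1.1 q.1.2 (1 : Ω) q.1.1 q.1.2 = 0 := h2
    rw [Matrix.single_apply_same] at h3
    exact one_ne_zero h3
  obtain ⟨d', hd'⟩ := hd'
  refine ⟨R, ?_, hRm, ρ, d, d', hrep, hdiag, hd'⟩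
  intro g θ hθ
  rw [hR] at hθ ⊢
  rw [Polynomial.aeval_algHom_apply, hθ, map_zero]

end Pool.Agent.LibPI63
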