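import Pool.Agent.LibPI63.Main
import Pool.Agent.LibMS46.Assembly

/-!
The exponent of a division algebra of degree `n` divides `n / rad n`, without the hypothesis on
`K_2`.
-/

set_option autoImplicit false

open Finset Module Pool.Agent.LibK2Tower Pool.Agent.LibCoc63 Pool.Agent.LibCocU

namespace Pool.Agent.LibPI63

theorem hq {F : Type} [Field F] (p : ℕ) [Fact p.Prime] [CharP F p]
    (hF : ∀ n : ℕ, n ≠ 0 → ∀ a : F, ∃ b : F, b ^ n = a) : HQ F := by
  intro E _ _ N hN _ ζ hζ hE x
  exact LibMS46.k2_torsion p hF hN hζ hE x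

theorem period_one {F : Type} [Field F] {A : Type} [Ring A] [Algebra F A]
    (hA : LibMS46.IsCSA F A) (h1 : finrank F A = 1) :
    ∃ m : ℕ, m ≠ 0 ∧ Nonempty (A ≃ₐ[F] Matrix (Fin m) (Fin m) F) := by
  obtain ⟨_, _, _⟩ := hA
  have hinj : Function.Injective (Algebra.ofId F A) := (Algebra.ofId F A).toRingHom.injective
  have hsur : Function.Surjective (Algebra.ofId F A) :=
    (LinearMap.injective_iff_surjective_of_finrank_eq_finrank (f := (Algebra.ofId F A).toLinearMap)
      (by rw [finrank_self, h1])).1 hinj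
  obtain ⟨m, hm, ⟨e⟩⟩ := LibMS46.isSplit_self F
  exact ⟨m, hm, ⟨(AlgEquiv.ofBijective (Algebra.ofId F A) ⟨hinj, hsur⟩).symm.trans e⟩⟩

theorem finrank_tensorPow {F A : Type} [Field F] [Ring A] [Algebra F A] (hA : finrank F A = 1)
    {k : ℕ} {T : Type} [Ring T] [Algebra F T] (hT : LibMS46.IsTensorPow F A k T) :
    finrank F T = 1 := by
  induction hT with
  | zero => exact finrank_self F
  | succ n B h ih => rw [Module.finrank_tensorProduct, hA, ih]

/-- The exponent of a central division algebra of degree `n` divides `n / rad n`. -/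
theorem period_index {F : Type} [Field F] (p : ℕ) [Fact p.Prime] [CharP F p]
    (hF : ∀ n : ℕ, n ≠ 0 → ∀ a : F, ∃ b : F, b ^ n = a) {D : Type} [DivisionRing D]
    [Algebra F D] [Algebra.IsCentral F D] {n : ℕ} (hn : n ≠ 0) (hD : finrank F D = n ^ 2)
    {T : Type} [Ring T] [Algebra F T]
    (hT : LibMS46.IsTensorPow F D (n / ∏ l ∈ n.primeFactors, l) T) :
    ∃ m : ℕ, m ≠ 0 ∧ Nonempty (T ≃ₐ[F] Matrix (Fin m) (Fin m) F) := by
  rcases Nat.lt_or_ge n 2 with h2 | h2
  · have h1 : n = 1 := by omega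
    have hD1 : finrank F D = 1 := by rw [hD, h1, one_pow]
    have : FiniteDimensional F D := FiniteDimensional.of_finrank_pos (by omega)
    exact period_one (isCSA_tensorPow ⟨inferInstance, inferInstance, inferInstance⟩ hT)
      (finrank_tensorPow hD1 hT)
  · exact period_division p hF (hq p hF) h2 hD hT

end Pool.Agent.LibPI63
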