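import Pool.Agent.LibPI63.Comb
import Pool.Agent.LibPI63.ChiN
import Pool.Agent.LibPI63.DiagN
import Pool.Agent.LibCoc63.Prime
import Pool.Agent.LibCocU.LimU
import Pool.Agent.LibCocU.Pow
import Pool.Agent.LibCoc63.Inv

/-!
The exponent of a division algebra of degree `n` divides `n / rad n`.
-/

set_option autoImplicit false

open Finset Module Pool.Agent.LibK2Tower Pool.Agent.LibCoc63 Pool.Agent.LibCocU

namespace Pool.Agent.LibPI63

/-- The arithmetic of the orders. -/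
theorem mul_rad_dvd {o n : ℕ} (hn : n ≠ 0) (ho : o ∣ n)
    (h : ∀ l, l.Prime → l ∣ n → ¬ l ^ n.factorization l ∣ o) :
    o ∣ n / ∏ l ∈ n.primeFactors, l := by
  have hrad : (∏ l ∈ n.primeFactors, l) ≠ 0 :=
    Finset.prod_ne_zero_iff.2 (fun l hl => (Nat.prime_of_mem_primeFactors hl).ne_zero)
  have ho0 : o ≠ 0 := fun h0 => hn (Nat.eq_zero_of_zero_dvd (h0 ▸ ho))
  refine Nat.dvd_div_of_mul_dvd ?_
  rw [mul_comm]
  rw [← Nat.factorization_prime_le_iff_dvd (mul_ne_zero ho0 hrad) hn]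
  intro q hq
  rw [Nat.factorization_mul ho0 hrad, Finsupp.add_apply]
  have h1 : (∏ l ∈ n.primeFactors, l).factorization q = if q ∈ n.primeFactors then 1 else 0 := by
    rw [Nat.factorization_prod (fun l hl => (Nat.prime_of_mem_primeFactors hl).ne_zero),
      Finsupp.finset_sum_apply]
    rw [Finset.sum_congr rfl (fun l hl => by
      rw [(Nat.prime_of_mem_primeFactors hl).factorization, Finsupp.single_apply])]
    rw [Finset.sum_ite_eq' n.primeFactors q (fun _ => 1)]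
  rw [h1]
  by_cases hqn : q ∣ n
  · rw [if_pos (Nat.mem_primeFactors.2 ⟨hq, hqn, hn⟩)]
    by_contra hlt
    push_neg at hlt
    apply h q hq hqn
    exact (hq.pow_dvd_iff_le_factorization ho0).2 (by omega)
  · rw [if_neg (fun hmem => hqn (Nat.dvd_of_mem_primeFactors hmem)), add_zero]
    exact (Nat.factorization_le_iff_dvd ho0 hn).2 ho q

theorem exists_cls_pow {F : Type*} {Ω B D : Type*} [Field F] [Field B] [Field Ω] [Algebra F B]
    [Algebra B Ω] [Algebra F Ω] [IsScalarTower F B Ω] [PerfectField F] [PerfectField B]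
    [IsAlgClosed Ω] [Algebra.IsAlgebraic B Ω] [DecidableEq Ω] [DivisionRing D] [Algebra F D]
    [Algebra.IsCentral F D] {n : ℕ} (hn : 2 ≤ n) (hD : finrank F D = n ^ 2)
    (hW : ∀ l : ℕ, l.Prime → l ∣ n → (CharP Ω l ∨ ∃ z : PR B Ω l, W z = ⊥)) :
    ∃ (R : Finset Ω) (_ : Nonempty R) (ρ : D →ₐ[F] Matrix R R Ω) (v : V B Ω), IsRep ρ ∧
      IsCls B ρ v ∧ v ^ (n / ∏ l ∈ n.primeFactors, l) = 1 := by
  obtain ⟨R, hRg, hRl, ρ, d, d', hρ, hd, hd'⟩ := exists_diagN (F := F) (Ω := Ω) (D := D) hn hD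
  letI : MulAction (Ω ≃ₐ[B] Ω) R :=
    { smul := fun g θ => ⟨g θ, hRg (g.restrictScalars F) θ θ.2⟩
      one_smul := fun θ => Subtype.ext rfl
      mul_smul := fun g h θ => Subtype.ext rfl }
  have hιg : ∀ (g : Ω ≃ₐ[B] Ω) (θ : R), ((g • θ : R) : Ω) = g (θ : Ω) := fun _ _ => rfl
  haveI : CtsSet B Ω R := ⟨⟨R, fun g hg θ => Subtype.ext (hg θ θ.2)⟩⟩
  have hcard : Fintype.card R = n := by rw [Fintype.card_coe, hRl]
  haveI : Nonempty R := by
    rw [← Fintype.card_pos_iff, hcard]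
    omega
  obtain ⟨v, hv⟩ := exists_isCls B hρ
  refine ⟨R, inferInstance, ρ, v, hρ, hv, ?_⟩
  have hvn : v ^ n = 1 := by rw [← hcard]; exact isCls_pow hv
  obtain ⟨A, δ, hAδ, hvδ⟩ := hv
  obtain ⟨μ, M, hμ, h1, h2⟩ := exists_mono (fun θ : R => (θ : Ω)) Subtype.val_injective hιg ρ d d'
    hd hd' A δ hAδ
  rw [← orderOf_dvd_iff_pow_eq_one]
  refine mul_rad_dvd (by omega) (orderOf_dvd_of_pow_eq_one hvn) (fun l hl hln hdiv => ?_)
  have hn0 : n ≠ 0 := by omega
  have hRl' : Fintype.card R = l ^ n.factorization l * (n / l ^ n.factorization l) := by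
    rw [hcard, Nat.ordProj_mul_ordCompl_eq_self]
  obtain ⟨H, _, _, hX, θ₀, r, s, χ, κ, hs, hχc, hχ, hk, hξ⟩ := exists_chiN hl hRl'
    (Nat.not_dvd_ordCompl hl hn0) (hl.factorization_pos_of_dvd hn0 hln)
    (fun θ : R => (θ : Ω)) Subtype.val_injective hιg
  obtain ⟨b, hb, β, hβ, hδ⟩ := combN μ M δ hμ h1 h2 r s θ₀ hs χ hχc hχ κ hk
  have hone : cl (fun g h => ∏ x, b x ^ κ g h x) = 1 := by
    rcases hW l hl hln with hW | ⟨z, hW⟩
    · exact core_char hl hb χ hχc κ hk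
    · obtain ⟨ξ, hξ⟩ := hξ z
      have ha : (fun x => ξ x ^ l) ∈ Eqv B Ω ((Ω ≃ₐ[B] Ω) ⧸ H) := by
        intro g x
        have h3 := hξ g (g • x)
        rw [inv_smul_smul] at h3
        rw [map_pow, h3, mul_pow, ← pow_mul, mul_comm (χ g (g • x)), pow_mul, z.prim.pow_eq_one,
          one_pow, one_mul]
      have hC : Comp z (fun x => ξ x ^ l) b (fun g h => ∏ x, b x ^ κ g h x) := by
        refine ⟨ξ, fun g x => (χ g x : ℤ), fun g h x => (κ g h x : ℤ),
          hχc.comp (fun f x => (f x : ℤ)), fun _ => rfl, ?_, ?_, ?_⟩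
        · intro g x
          rw [hξ g x, zpow_natCast]
        · intro g h x
          have := hk g h x
          zify at this
          linarith
        · intro g h
          simp only [zpow_natCast]
      have hS := rosset_tate z ha hb
      rw [hW, Subgroup.mem_bot, S_eq z hb hC] at hS
      exact hS
  have hX1 : v ^ Fintype.card ((Ω ≃ₐ[B] Ω) ⧸ H) = 1 := by
    rw [hvδ, ← cl_pow, ← hone]
    exact cl_eq hβ (fun g h => by rw [← hδ g h]; rfl)
  exact hX (hdiv.trans (orderOf_dvd_of_pow_eq_one hX1))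

theorem isCSA_tensorPow {F A : Type} [Field F] [Ring A] [Algebra F A] (hA : LibMS46.IsCSA F A)
    {k : ℕ} {T : Type} [Ring T] [Algebra F T] (hT : LibMS46.IsTensorPow F A k T) :
    LibMS46.IsCSA F T := by
  induction hT with
  | zero => exact LibMS46.IsCSA.self F
  | succ n B h ih => exact hA.tensor ih

/-- The exponent of a central division algebra of degree `n` divides `n / rad n`. -/
theorem period_division {F : Type} [Field F] (p : ℕ) [Fact p.Prime] [CharP F p]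
    (hF : ∀ n : ℕ, n ≠ 0 → ∀ a : F, ∃ b : F, b ^ n = a) (hQ : HQ F) {D : Type} [DivisionRing D]
    [Algebra F D] [Algebra.IsCentral F D] {n : ℕ} (hn : 2 ≤ n) (hD : finrank F D = n ^ 2)
    {T : Type} [Ring T] [Algebra F T]
    (hT : LibMS46.IsTensorPow F D (n / ∏ l ∈ n.primeFactors, l) T) :
    ∃ m : ℕ, m ≠ 0 ∧ Nonempty (T ≃ₐ[F] Matrix (Fin m) (Fin m) F) := by
  classical
  have hp : p.Prime := Fact.out
  have hPF : PerfectField F := perfectField_of_div p hF
  let Ω := AlgebraicClosure F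
  have hΩ : CharP Ω p := charP_of_injective_algebraMap (algebraMap F Ω).injective p
  let B := IntermediateField.adjoin F {ξ : Ω | ∃ k : ℕ, k ≠ 0 ∧ ξ ^ k = 1}
  have hPB : PerfectField B := Algebra.IsAlgebraic.perfectField (K := F)
  have hroots : ∀ (ξ : Ω) (k : ℕ), k ≠ 0 → ξ ^ k = 1 → ∃ b : B, algebraMap B Ω b = ξ :=
    fun ξ k hk hξ => ⟨⟨ξ, IntermediateField.subset_adjoin F _ ⟨k, hk, hξ⟩⟩, rfl⟩
  have htop : IntermediateField.adjoin F {(1 : F)} = ⊤ := Subsingleton.elim _ _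
  have hQB := infiniteU hQ p (E := F) (Ω := Ω) (z0 := 1) one_ne_zero (one_pow 1) htop
  have hW : ∀ l : ℕ, l.Prime → l ∣ n → (CharP Ω l ∨ ∃ z : PR B Ω l, W z = ⊥) := by
    intro l hl _
    by_cases hlp : l = p
    · left
      rw [hlp]
      exact hΩ
    · right
      have hlΩ : NeZero (l : Ω) := by
        refine ⟨fun h0 => hlp ?_⟩
        exact ((Nat.prime_dvd_prime_iff_eq hp hl).1 ((CharP.cast_eq_zero_iff Ω p l).1 h0)).symm
      have : NeZero l := ⟨hl.ne_zero⟩
      obtain ⟨ζ, hζ⟩ := HasEnoughRootsOfUnity.exists_primitiveRoot Ω l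
      obtain ⟨b, hb⟩ := hroots ζ l hl.ne_zero hζ.pow_eq_one
      let z : PR B Ω l :=
        ⟨Units.mk0 ζ (hζ.ne_zero hl.ne_zero), hl.pos, IsPrimitiveRoot.coe_units_iff.1 hζ,
          fun g => Units.ext (by
            rw [coe_act, Units.val_mk0, ← hb]
            exact g.commutes b)⟩
      exact ⟨z, W_eq_bot_of (F := F) p hF hroots hQB z⟩
  obtain ⟨R, _, ρ, v, hρ, hv, hv1⟩ := exists_cls_pow hn hD hW
  have hDfin : FiniteDimensional F D := hρ.finiteDimensional
  have hDC : LibMS46.IsCSA F D := ⟨inferInstance, inferInstance, inferInstance⟩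
  obtain ⟨n', _, _, _, σ, hσ, hσv⟩ := exists_isCls_pow hρ hv hT
  rw [hv1] at hσv
  exact split_of_isCls_one p hF (E := F) (Ω := Ω) (z0 := 1) one_ne_zero (one_pow 1) htop
    (isCSA_tensorPow hDC hT) hσ hσv

end Pool.Agent.LibPI63
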